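import Mathlib

/-! Definitions for MP_861c96_gt: curves in 3-space meeting every plane that meets the unit ball. -/

namespace Pool.Agent.MP_861c96_gt

open Set

/-- The length of a curve parametrised by `[0,1]`: the supremum of inscribed polygon lengths. -/
noncomputable def curveLength (γ : ℝ → EuclideanSpace ℝ (Fin 3)) : ENNReal :=
  eVariationOn γ (Icc 0 1)

/-- An admissible curve: continuous on `[0,1]`, of finite length, and its image meets every
affine plane that meets the closed unit ball. -/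
def Admissible (γ : ℝ → EuclideanSpace ℝ (Fin 3)) : Prop :=
  ContinuousOn γ (Icc 0 1) ∧ curveLength γ ≠ ⊤ ∧
    ∀ H : AffineSubspace ℝ (EuclideanSpace ℝ (Fin 3)), Module.finrank ℝ H.direction = 2 →
      (∃ x ∈ H, x ∈ Metric.closedBall (0 : EuclideanSpace ℝ (Fin 3)) 1) →
      ∃ s ∈ Icc (0 : ℝ) 1, γ s ∈ H

/-- The infimum of the lengths of admissible curves. -/
noncomputable def Lstar : ENNReal :=
  ⨅ (γ : ℝ → EuclideanSpace ℝ (Fin 3)) (_ : Admissible γ), curveLength γ

/-- The circular helix `t ↦ (r cos t, r sin t, c t)`. -/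
noncomputable def helix (r c t : ℝ) : EuclideanSpace ℝ (Fin 3) :=
  !₂[r * Real.cos t, r * Real.sin t, c * t]

/-- `γ` runs along a straight segment on `[0,a]`, then along a half-turn helix (moved by a rigid
motion `R`) from one of its ends to the other on `[a,b]`, then along a straight segment on `[b,1]`. -/
def IsHelixWithSegments (γ : ℝ → EuclideanSpace ℝ (Fin 3)) : Prop :=
  ∃ (R : EuclideanSpace ℝ (Fin 3) ≃ᵃⁱ[ℝ] EuclideanSpace ℝ (Fin 3)) (r c t₀ a b : ℝ),
    0 < r ∧ 0 ≤ a ∧ a ≤ b ∧ b ≤ 1 ∧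
    γ '' Icc 0 a = segment ℝ (γ 0) (γ a) ∧
    γ a = R (helix r c t₀) ∧
    γ '' Icc a b = (fun t => R (helix r c t)) '' Icc t₀ (t₀ + Real.pi) ∧
    γ b = R (helix r c (t₀ + Real.pi)) ∧
    γ '' Icc b 1 = segment ℝ (γ b) (γ 1)

end Pool.Agent.MP_861c96_gt
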